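import Pool.Agent.H38.Hyp.Fin

/-!
Collinear and non-collinear triples; generic placement of gadgets.
-/

namespace Pool.Agent.Lead.Fa

open Pool.Agent.H38.NP Pool.Agent.H38.ER Pool.Agent.H38.Hyp Filter

abbrev T3 := ℕ × ℕ × ℕ

def CS (p : ℕ × List T3 × List T3) (x : ℕ → ℝ × ℝ) : Prop :=
  (∀ t ∈ p.2.1, cx (x t.1) (x t.2.1) (x t.2.2) = 0) ∧ ∀ t ∈ p.2.2, cx (x t.1) (x t.2.1) (x t.2.2) ≠ 0

def Ok3 (n : ℕ) (t : T3) : Prop :=
  t.1 < n ∧ t.2.1 < n ∧ t.2.2 < n ∧ t.1 ≠ t.2.1 ∧ t.1 ≠ t.2.2 ∧ t.2.1 ≠ t.2.2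

theorem cs_erh : ERH (fun p : ℕ × List T3 × List T3 => (∀ t ∈ p.2.1, Ok3 p.1 t) ∧
    (∀ t ∈ p.2.2, Ok3 p.1 t) ∧ ((∃ x, CS p x) → ∃ x, CS p x ∧
      ∀ i < p.1, ∀ j < p.1, i ≠ j → x i ≠ x j)) fun p => ∃ x, CS p x := by
  refine hyp_erh.reduce (fun p => (p.1 + 1, (p.2.filter fun e => decide e.Nodup).map
    (fun e => (e.getD 0 0, e.getD 1 0, e.getD 2 0)), negs p)) (by unfold negs; fun_prop) ?_
  rintro p ⟨h1, h4⟩
  simp only [CS, negs, List.forall_mem_append, List.forall_mem_flatMap, List.forall_mem_map,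
    List.mem_filter, List.mem_range, bne_iff_ne, and_imp, Bool.not_eq_true',
    List.contains_eq_mem, decide_eq_false_iff_not, decide_eq_true_eq]
  have A : WR p → ∃ x : ℕ → ℝ × ℝ, ((∀ e ∈ p.2, e.Nodup →
      cx (x (e.getD 0 0)) (x (e.getD 1 0)) (x (e.getD 2 0)) = 0) ∧
      (∀ i < p.1, ∀ j < p.1, j ≠ i → cx (x i) (x j) (x p.1) ≠ 0) ∧ ∀ e ∈ p.2, ∀ a ∈ e, ∀ b ∈ e,
        b ≠ a → ∀ c < p.1, c ∉ e → cx (x a) (x b) (x c) ≠ 0) ∧
      ∀ i < p.1 + 1, ∀ j < p.1 + 1, i ≠ j → x i ≠ x j := fun h => by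
    obtain ⟨y, k1, k2⟩ := h4 h
    obtain ⟨t, ht, ht'⟩ := ((ev_lt fun i hi => ev_lt fun j hj => (show ∀ᶠ t in cofinite, j ≠ i →
        ip (cr (lf (y i)) (lf (y j))) (lf (0 + t, 0 + t ^ 2)) ≠ 0 from by
      by_cases e : j = i
      · simp [e]
      · exact (ip_ev (cr_ne.2 (np_lf (k1 i hi j hj (Ne.symm e)))) 0 0 1 one_ne_zero).mono
          fun _ h _ => h)).and (ev_lt (m := p.1) fun i _ => eventually_cofinite_ne (y i).1)).exists
    let x : ℕ → ℝ × ℝ := fun i => if i < p.1 then y i else (0 + t, 0 + t ^ 2)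
    have e : ∀ i < p.1, x i = y i := fun i h => if_pos h
    have e' : x p.1 = (0 + t, 0 + t ^ 2) := if_neg (lt_irrefl _)
    refine ⟨x, ⟨fun G hG _ => ?_, fun i hi j hj hij => ?_, fun G hG a ha b hb hab c hc hc' k => ?_⟩,
      fun i hi j hj hij => ?_⟩
    · obtain ⟨-, α, β, γ, h0, h⟩ := k2 G hG
      obtain ⟨l, h1⟩ := h1 G hG
      obtain ⟨a, b, c, rfl⟩ := List.length_eq_three.1 l
      simp only [List.forall_mem_cons] at h1
      simp only [List.getD_cons_zero, List.getD_cons_succ, e a h1.1, e b h1.2.1, e c h1.2.2.1]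
      exact line_cx h0 ((h a h1.1).2 (by simp)) ((h b h1.2.1).2 (by simp)) ((h c h1.2.2.1).2 (by simp))
    · rw [e i hi, e j hj, e', ← det_lf, ← ip_cr]
      exact ht i hi j hj hij
    · obtain ⟨-, α, β, γ, h0, h⟩ := k2 G hG
      have a1 := (h1 G hG).2 a ha
      have b1 := (h1 G hG).2 b hb
      rw [e a a1, e b b1, e c hc] at k
      exact hc' ((h c hc).1 (off_cx (k1 a a1 b b1 (Ne.symm hab)) ((h a a1).2 ha) ((h b b1).2 hb) k))
    · by_cases a : i < p.1 <;> by_cases b : j < p.1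
      · rw [e i a, e j b]; exact k1 i a j b hij
      · rw [e i a, show j = p.1 by omega, e']; exact fun h => ht' i a (by simp [h])
      · rw [e j b, show i = p.1 by omega, e']; exact fun h => ht' j b (by simp [← h])
      · omega
  have B : (∃ x : ℕ → ℝ × ℝ, (∀ e ∈ p.2, e.Nodup →
      cx (x (e.getD 0 0)) (x (e.getD 1 0)) (x (e.getD 2 0)) = 0) ∧
      (∀ i < p.1, ∀ j < p.1, j ≠ i → cx (x i) (x j) (x p.1) ≠ 0) ∧ ∀ e ∈ p.2, ∀ a ∈ e, ∀ b ∈ e,
        b ≠ a → ∀ c < p.1, c ∉ e → cx (x a) (x b) (x c) ≠ 0) → WR p := fun ⟨x, k1, k2, k3⟩ =>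
    ⟨x, (· ∈ p.2), fun i hi j hj h => (ne_cx (k2 i hi j hj h.symm)).1,
      ⟨fun i _ j _ k _ h => by
        by_cases n : [i, j, k].Nodup
        · exact k1 _ h n
        · simp only [List.nodup_cons, List.mem_cons, List.not_mem_nil] at n
          obtain rfl | rfl | rfl : i = j ∨ i = k ∨ j = k := by grind
          all_goals simp [cx, mul_comm],
        fun e f g he _ _ a _ b _ c hc l1 l2 _ => k3 e he a l1.1 b l1.2.1
          (by rintro rfl; exact l2.2.2 l2.1) c hc l1.2.2⟩, fun _ h => h⟩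
  refine ⟨⟨fun e he n => ?_, ⟨fun i hi j hj h => ?_, fun e he a ha b hb h c hc hc' => ?_⟩,
    fun h => A (B h)⟩, fun h => (A h).imp fun _ h => h.1, B⟩
  · obtain ⟨l, h1⟩ := h1 e he
    obtain ⟨a, b, c, rfl⟩ := List.length_eq_three.1 l
    simp [Ok3] at h1 n ⊢; omega
  · simp only [Ok3]; omega
  · have := (h1 e he).2 a ha
    have := (h1 e he).2 b hb
    have : a ≠ c := by rintro rfl; exact hc' ha
    have : b ≠ c := by rintro rfl; exact hc' hb
    simp only [Ok3]; omega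

theorem seq {c m Sk} (hb : ∀ x ∈ Sk, ∀ a ∈ x.2, a < 3 + m) (hs : cH.GC c 3 m Sk) (l : List Con) :
    ∀ b q, cH.gen b q → (∀ A ∈ l, A.2.length = 3 ∧ (∀ a ∈ A.2, a < b) ∧ cH.R c (A.2.map q)) →
      ∃ q', (∀ i < b, q' i = q i) ∧ cH.gen (b + l.length * m) q' ∧ cH.sat (ex 3 m Sk b l) q' ∧
        ∀ t < l.length, ∀ i < m, ∀ j < b + t * m, ∀ k < b + t * m, j ≠ k →
          det3 (q' j).1 (q' k).1 (q' (b + t * m + i)).1 ≠ 0 := by
  induction l with
  | nil => exact fun b q h _ => ⟨q, fun _ _ => rfl, by simpa using h, by simp [Sem.sat, ex], by simp⟩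
  | cons A l ih =>
    intro b q hg h
    obtain ⟨h2, h3, h4⟩ := h A (by simp)
    rw [← map_rn (b := b) h2] at h4
    let D := (List.range b).flatMap fun j => ((List.range b).filter fun k => j != k).map fun k =>
      ((q j).1, (q k).1, (q j).1)
    obtain ⟨g, g1, g2, g3⟩ := hs _ h4 (((1, 0, 0), D) :: (List.range b).map q) (by
      simp only [List.forall_mem_cons, List.forall_mem_map, List.mem_range]
      refine ⟨⟨by simp, ?_⟩, hg.1⟩
      simp only [D, List.forall_mem_flatMap, List.forall_mem_map, List.mem_filter, List.mem_range,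
        bne_iff_ne, and_imp]
      exact fun j hj k hk n => (hg.2 j hj k hk n).1)
    have g0 : ∀ i < m, ∀ j < b, cH.Ap (g i) (q j) := fun i hi j hj =>
      (g1 i hi).2 _ (List.mem_cons_of_mem _ (List.mem_map.2 ⟨j, by simpa, rfl⟩))
    let q1 : ℕ → PV := fun i => if i < b then q i else g (i - b)
    have e1 : ∀ i < b, q1 i = q i := fun i hi => if_pos hi
    have e2 : ∀ i, b ≤ i → q1 i = g (i - b) := fun i hi => if_neg (by omega)
    have hg1 : cH.gen (b + m) q1 := by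
      refine ⟨fun i hi => ?_, fun i hi j hj hij => ?_⟩
      · by_cases h1 : i < b
        · rw [e1 i h1]; exact hg.1 i h1
        · rw [e2 i (by omega)]; exact (g1 _ (by omega)).1
      · by_cases h1 : i < b <;> by_cases h1' : j < b
        · rw [e1 i h1, e1 j h1']; exact hg.2 i h1 j h1' hij
        · rw [e1 i h1, e2 j (by omega)]; exact cH_sy _ _ (g0 _ (by omega) _ h1)
        · rw [e1 j h1', e2 i (by omega)]; exact g0 _ (by omega) _ h1'
        · rw [e2 i (by omega), e2 j (by omega)]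
          rcases Nat.lt_or_gt_of_ne hij with h | h
          · exact cH_sy _ _ (g2 _ (by omega) _ (by omega))
          · exact g2 _ (by omega) _ (by omega)
    obtain ⟨q', a1, a2, a3, a4⟩ := ih (b + m) q1 hg1 fun B hB => by
      obtain ⟨b2, b3, b4⟩ := h B (by simp [hB])
      refine ⟨b2, fun a ha => by have := b3 a ha; omega, ?_⟩
      rwa [List.map_congr_left fun a ha => e1 a (b3 a ha)]
    refine ⟨q', fun i hi => (a1 i (by omega)).trans (e1 i hi), ?_, fun x hx => ?_,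
      fun t ht i hi j hj k hk n => ?_⟩
    · rwa [List.length_cons, add_mul, one_mul, add_comm _ m, ← add_assoc]
    · rcases List.mem_append.1 hx with hx | hx
      · refine sat_inst.2 (Sem.sat_congr g3 hb fun i hi => ?_) x hx
        by_cases hk : i < 3
        · have := rn_lt (b := b) h2 h3 hk
          rw [if_pos hk, a1 _ (by omega), e1 _ this]
        · rw [if_neg hk, rn_ge (by omega), a1 _ (by omega), e2 _ (by omega)]; congr 1; omega
      · exact a3 x hx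
    · rcases t with _ | t
      · simp only [zero_mul, add_zero] at hj hk ⊢
        rw [a1 _ (by omega), a1 _ (by omega), a1 _ (by omega), e1 _ hj, e1 _ hk, e2 _ (by omega),
          Nat.add_sub_cancel_left]
        have := ((g1 i hi).2 _ List.mem_cons_self).2.1 ((q j).1, (q k).1, (q j).1) (by
          simp only [D, List.mem_flatMap, List.mem_map, List.mem_filter, List.mem_range, bne_iff_ne]
          exact ⟨j, hj, k, ⟨hk, n⟩, rfl⟩)
        simpa [(g0 i hi j hj).1, (g0 i hi k hk).1] using this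
      · have e : b + (t + 1) * m = b + m + t * m := by ring
        rw [e] at hj hk ⊢
        exact a4 t (by simpa using ht) i hi j hj k hk n

theorem affine {n} {q : ℕ → V3} (h : ∀ i < n, q i ≠ 0) : ∃ x : ℕ → ℝ × ℝ,
    (∀ i < n, ∀ j < n, NP (q i) (q j) → x i ≠ x j) ∧ ∀ i < n, ∀ j < n, ∀ k < n,
      cx (x i) (x j) (x k) = 0 ↔ det3 (q i) (q j) (q k) = 0 := by
  obtain ⟨t, ht⟩ := (ev_lt fun i hi => ip_ev (h i hi) 0 0 1 one_ne_zero).exists
  simp only [ip, zero_add, mul_one] at ht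
  refine ⟨fun i => ((q i).1 / ((q i).1 * t + (q i).2.1 * t ^ 2 + (q i).2.2),
    (q i).2.1 / ((q i).1 * t + (q i).2.1 * t ^ 2 + (q i).2.2)), fun i hi j hj n e => ?_,
    fun i hi j hj k hk => ?_⟩
  · have a := ht i hi
    have b := ht j hj
    simp only [Prod.mk.injEq, div_eq_div_iff a b] at e
    rcases n with k | k | k <;> grind
  · have a := ht i hi
    have b := ht j hj
    have c := ht k hk
    rw [← mul_left_inj' (mul_ne_zero (mul_ne_zero a b) c), zero_mul]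
    refine Eq.congr_left ?_
    have k : ∀ x w : ℝ, w ≠ 0 → x / w * w = x := fun _ _ => div_mul_cancel₀ _
    have e : ∀ (a b c : ℝ × ℝ) (u v w : ℝ), cx a b c * (u * v * w) =
      det3 (a.1 * u, a.2 * u, u) (b.1 * v, b.2 * v, v) (c.1 * w, c.2 * w, w) := fun _ _ _ _ _ _ => by
        simp only [cx, det3]; ring
    simp only [e, k _ _ a, k _ _ b, k _ _ c, det3]
    ring

theorem mem_line {u v z : ℝ × ℝ} (h : u ≠ v) : z ∈ line[ℝ, u, v] ↔ cx u v z = 0 := by
  rw [mem_affineSpan_pair_iff_exists_lineMap_eq]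
  refine ⟨?_, fun k => ?_⟩
  · rintro ⟨r, rfl⟩; simp [cx, AffineMap.lineMap_apply]; ring
  · obtain ⟨s, rfl⟩ := par2 h k
    exact ⟨s, by ext <;> simp [AffineMap.lineMap_apply, add_comm]⟩

theorem line_ne {u v w : ℝ × ℝ} (h : u ≠ v) (h' : u ≠ w) (k : line[ℝ, u, v] ≠ line[ℝ, u, w]) :
    cx u v w ≠ 0 := fun e => k (le_antisymm
  (affineSpan_pair_le_of_right_mem ((mem_line h').2 (by simp only [cx] at e ⊢; linarith)))
  (affineSpan_pair_le_of_right_mem ((mem_line h).2 e)))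

theorem des' {O A B C A' B' C' a b c} (h1 : cx A A' O = 0) (h2 : cx B B' O = 0) (h3 : cx C C' O = 0)
    (h4 : cx A B c = 0) (h5 : cx A' B' c = 0) (h6 : cx B C a = 0) (h7 : cx B' C' a = 0)
    (h8 : cx A C b = 0) (h9 : cx A' C' b = 0) (n1 : cx A A' B ≠ 0) (n2 : cx A A' C ≠ 0)
    (n3 : cx B B' A ≠ 0) (n4 : cx B B' C ≠ 0) (n5 : cx C C' A ≠ 0) (n6 : cx C C' B ≠ 0)
    (n7 : cx A' A B' ≠ 0) (n8 : cx A' A C' ≠ 0) : cx a b c = 0 := by
  have k : ∀ {A A' B B'}, cx A A' O = 0 → cx B B' O = 0 → cx A A' B ≠ 0 → cx B B' A ≠ 0 →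
      cx O A B ≠ 0 := fun h1 h2 n1 n3 e => by
    obtain ⟨s, rfl⟩ := par2 (ne_cx n1).1 h1
    obtain rfl : s = 0 := mul_left_cancel₀ n1 (by simp only [cx] at e ⊢; linarith)
    exact n3 (by simpa using h2)
  have r : ∀ {A A'}, cx A A' O = 0 → cx O A A' = 0 := fun h => by simp only [cx] at h ⊢; linarith
  refine des (r h1) (r h2) (r h3) h4 h5 h6 h7 h8 h9 (k h1 h2 n1 n3) (k h2 h3 n4 n6) (k h1 h3 n2 n5)
    (ne_cx n1).1.symm (ne_cx n3).1.symm ?_ ?_
  · rintro rfl; exact n7 (by simp only [cx] at h1 ⊢; linarith)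
  · rintro rfl; exact n8 (by simp only [cx] at h1 ⊢; linarith)

end Pool.Agent.Lead.Fa
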