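import Mathlib

namespace Pool.Agent.Lead.Fa

/-- `(n, L)` lists the coloured edges `(u, v, c)` of a simple `4`-regular graph on the vertices
`0, …, n - 1` with a proper edge-colouring (an edge may be listed more than once). -/
def Reg4 (p : ℕ × List (ℕ × ℕ × ℕ)) : Prop :=
  (∀ e ∈ p.2, e.1 < p.1 ∧ e.2.1 < p.1 ∧ e.1 ≠ e.2.1) ∧
  (∀ e ∈ p.2, ∀ f ∈ p.2, s(e.1, e.2.1) = s(f.1, f.2.1) → e.2.2 = f.2.2) ∧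
  (∀ e ∈ p.2, ∀ f ∈ p.2, s(e.1, e.2.1) ≠ s(f.1, f.2.1) →
    ∀ v, v ∈ s(e.1, e.2.1) → v ∈ s(f.1, f.2.1) → e.2.2 ≠ f.2.2) ∧
  ∀ v < p.1, {u | ∃ e ∈ p.2, s(e.1, e.2.1) = s(v, u)}.ncard = 4

/-- A faithful drawing exists. -/
def Faithful (p : ℕ × List (ℕ × ℕ × ℕ)) : Prop :=
  ∃ x : ℕ → ℝ × ℝ, (∀ u < p.1, ∀ v < p.1, u ≠ v → x u ≠ x v) ∧
    (∀ c, ∃ z, ∀ e ∈ p.2, e.2.2 = c → z ∈ line[ℝ, x e.1, x e.2.1]) ∧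
    ∀ e ∈ p.2, ∀ f ∈ p.2, s(e.1, e.2.1) ≠ s(f.1, f.2.1) →
      line[ℝ, x e.1, x e.2.1] ≠ line[ℝ, x f.1, x f.2.1]

end Pool.Agent.Lead.Fa
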