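import Pool.Agent.Lead.Fa.A
import Pool.Agent.Lead.Fa.Defs

/-!
The coloured graph: structure and soundness.
-/

namespace Pool.Agent.Lead.Fa

open Pool.Agent.H38.NP Pool.Agent.H38.ER Pool.Agent.H38.Hyp Filter

def mk4 (n : ℕ) (nb cl : ℕ → ℕ → ℕ) : List T3 :=
  (List.range n).flatMap fun v => (List.range 4).map fun k => (v, nb v k, cl v k)

theorem fa_mk4 {n nb cl} {P : T3 → Prop} :
    (∀ e ∈ mk4 n nb cl, P e) ↔ ∀ v < n, ∀ k < 4, P (v, nb v k, cl v k) := by
  simp only [mk4, List.forall_mem_flatMap, List.forall_mem_map, List.mem_range]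

def St (n : ℕ) (nb cl : ℕ → ℕ → ℕ) : Prop := ∀ v < n, ∀ k < 4, nb v k < n ∧ nb v k ≠ v ∧
  (∃ k' < 4, nb (nb v k) k' = v ∧ cl (nb v k) k' = cl v k) ∧
    ∀ k' < 4, k ≠ k' → nb v k ≠ nb v k' ∧ cl v k ≠ cl v k'

theorem St.reg {n nb cl} (h : St n nb cl) : Reg4 (n, mk4 n nb cl) := by
  have k : ∀ v < n, ∀ k < 4, ∀ w ∈ s(v, nb v k),
      ∃ j < 4, w < n ∧ s(w, nb w j) = s(v, nb v k) ∧ cl w j = cl v k := fun v hv k hk w hw => by
    rcases Sym2.mem_iff.1 hw with rfl | rfl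
    · exact ⟨k, hk, hv, rfl, rfl⟩
    · obtain ⟨a, -, ⟨j, hj, b, c⟩, -⟩ := h v hv k hk
      exact ⟨j, hj, a, by rw [b, Sym2.eq_swap], c⟩
  simp only [Reg4, fa_mk4]
  refine ⟨fun v hv k hk => ⟨hv, (h v hv k hk).1, (h v hv k hk).2.1.symm⟩,
    fun v hv i hi w hw j hj e => ?_, fun v hv i hi w hw j hj e u h1 h2 => ?_, fun v hv => ?_⟩
  · obtain ⟨l, hl, -, a, b⟩ := k w hw j hj v (by rw [← e]; simp)
    by_contra n
    exact ((h v hv i hi).2.2.2 l hl (by rintro rfl; exact n b)).1 (Sym2.congr_right.1 (e.trans a.symm))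
  · obtain ⟨l, hl, hu, a, b⟩ := k v hv i hi u h1
    obtain ⟨l', hl', -, a', b'⟩ := k w hw j hj u h2
    rw [← b, ← b']
    exact ((h u hu l hl).2.2.2 l' hl' (by rintro rfl; exact e (a.symm.trans a'))).2
  · have : {u | ∃ e ∈ mk4 n nb cl, s(e.1, e.2.1) = s(v, u)} = nb v '' Set.Iio 4 := by
      ext u
      constructor
      · rintro ⟨e, he, h'⟩
        revert h'
        refine fa_mk4 (P := fun e => s(e.1, e.2.1) = s(v, u) → _).2 (fun w hw j hj h' => ?_) e he
        obtain ⟨l, hl, -, a, -⟩ := k w hw j hj v (by rw [h']; simp)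
        exact ⟨l, hl, Sym2.congr_right.1 (a.trans h')⟩
      · rintro ⟨j, hj, rfl⟩
        exact ⟨_, fa_mk4.1 (fun _ h => h) v hv j hj, rfl⟩
    rw [this, Set.InjOn.ncard_image (s := Set.Iio 4) fun i hi j hj e => by_contra fun n =>
      ((h v hv i hi).2.2.2 j hj n).1 e]
    simp

def arg (t : T3) (k : ℕ) : ℕ := if k = 0 then t.1 else if k = 1 then t.2.1 else t.2.2
def tQ (a k : ℕ) : ℕ := ([[1, 2, 3], [0, 3, 2], [3, 0, 1], [2, 1, 0]].getD a []).getD k 0
def tD (a k : ℕ) : ℕ :=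
  ([[3, 1, 2], [4, 2, 0], [5, 0, 1], [0, 4, 5], [1, 5, 3], [2, 3, 4]].getD a []).getD k 0
def cD (a k : ℕ) : ℕ :=
  ([[0, 2, 1], [0, 0, 2], [0, 1, 0], [0, 2, 1], [0, 0, 2], [0, 1, 0]].getD a []).getD k 0

variable (p : ℕ × List T3 × List T3)

def nb (v k : ℕ) : ℕ := if v < 8 * p.2.2.length then
  (if k = 3 then (if v / 4 % 2 = 0 then v + 4 else v - 4) else 4 * (v / 4) + tQ (v % 4) k) else
  if k = 3 then (if (v - 8 * p.2.2.length) / 6 % 2 = 0 then v + 6 else v - 6) else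
    8 * p.2.2.length + 6 * ((v - 8 * p.2.2.length) / 6) + tD ((v - 8 * p.2.2.length) % 6) k

def cl (v k : ℕ) : ℕ := if k = 3 then p.1 + 2 * p.2.1.length + min v (nb p v 3) else
  if v < 8 * p.2.2.length then arg (p.2.2.getD (v / 8) (0, 0, 0)) k else
  if k = 0 then p.1 + (v - 8 * p.2.2.length) / 6 else
    arg (p.2.1.getD ((v - 8 * p.2.2.length) / 12) (0, 0, 0)) (cD ((v - 8 * p.2.2.length) % 6) k)

def gr : ℕ × List T3 := (8 * p.2.2.length + 12 * p.2.1.length,
  mk4 (8 * p.2.2.length + 12 * p.2.1.length) (nb p) (cl p))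

theorem pt_gr : PT gr := by
  have h1 : PT fun x : (ℕ × List T3 × List T3) × ℕ × ℕ => nb x.1 x.2.1 x.2.2 := by
    unfold nb tQ tD; fun_prop
  have h2 : PT fun x : (ℕ × List T3 × List T3) × ℕ × ℕ => cl x.1 x.2.1 x.2.2 := by
    have := h1.comp (g := fun x : (ℕ × List T3 × List T3) × ℕ × ℕ => (x.1, x.2.1, 3)) (by fun_prop)
    unfold cl arg cD; fun_prop
  unfold gr mk4
  refine PT.mk (by fun_prop) (PT.flatMap (PT.map (PT.mk (by fun_prop) (PT.mk ?_ ?_)) (by fun_prop))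
    (by fun_prop))
  · exact h1.comp (g := fun x : (_ × ℕ) × ℕ => (x.1.1, x.1.2, x.2)) (by fun_prop)
  · exact h2.comp (g := fun x : (_ × ℕ) × ℕ => (x.1.1, x.1.2, x.2)) (by fun_prop)

variable {p} {t s a k : ℕ}

theorem evQ (ht : t < p.2.2.length) (hs : s < 2) (ha : a < 4) :
    nb p (8 * t + 4 * s + a) 3 = 8 * t + 4 * (1 - s) + a ∧
    cl p (8 * t + 4 * s + a) 3 = p.1 + 2 * p.2.1.length + (8 * t + a) ∧ ∀ k < 3,
      nb p (8 * t + 4 * s + a) k = 8 * t + 4 * s + tQ a k ∧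
      cl p (8 * t + 4 * s + a) k = arg (p.2.2.getD t (0, 0, 0)) k := by
  have h : 8 * t + 4 * s + a < 8 * p.2.2.length := by omega
  have e : nb p (8 * t + 4 * s + a) 3 = 8 * t + 4 * (1 - s) + a := by
    simp only [nb, if_pos h, if_true]; split_ifs <;> omega
  refine ⟨e, by rw [cl, if_pos rfl, e]; omega, fun k hk => ?_⟩
  simp only [nb, cl, if_pos h, if_neg hk.ne, show (8 * t + 4 * s + a) % 4 = a by omega,
    show (8 * t + 4 * s + a) / 8 = t by omega, and_true]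
  omega

theorem evD (hs : s < 2) (ha : a < 6) {b} (hb : b = 8 * p.2.2.length) :
    nb p (b + (12 * t + 6 * s + a)) 3 = b + (12 * t + 6 * (1 - s) + a) ∧
    cl p (b + (12 * t + 6 * s + a)) 3 = p.1 + 2 * p.2.1.length + (b + (12 * t + a)) ∧ ∀ k < 3,
      nb p (b + (12 * t + 6 * s + a)) k = b + (12 * t + 6 * s + tD a k) ∧
      cl p (b + (12 * t + 6 * s + a)) k = if k = 0 then p.1 + (2 * t + s) else
        arg (p.2.1.getD t (0, 0, 0)) (cD a k) := by
  have h : ¬ b + (12 * t + 6 * s + a) < b := by omega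
  have e : nb p (b + (12 * t + 6 * s + a)) 3 = b + (12 * t + 6 * (1 - s) + a) := by
    simp only [nb, ← hb, if_neg h, if_true]; split_ifs <;> omega
  refine ⟨e, by rw [cl, if_pos rfl, e]; omega, fun k hk => ?_⟩
  simp only [nb, cl, ← hb, if_neg h, if_neg hk.ne, Nat.add_sub_cancel_left,
    show (12 * t + 6 * s + a) % 6 = a by omega, show (12 * t + 6 * s + a) / 12 = t by omega,
    show (12 * t + 6 * s + a) / 6 = 2 * t + s by omega, and_true]
  omega

theorem vcases {v} (h : v < 8 * p.2.2.length + 12 * p.2.1.length) :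
    (∃ t < p.2.2.length, ∃ s < 2, ∃ a < 4, v = 8 * t + 4 * s + a) ∨
    ∃ t < p.2.1.length, ∃ s < 2, ∃ a < 6, v = 8 * p.2.2.length + (12 * t + 6 * s + a) := by
  by_cases c : v < 8 * p.2.2.length
  · exact .inl ⟨v / 8, by omega, v / 4 % 2, by omega, v % 4, by omega, by omega⟩
  · exact .inr ⟨(v - 8 * p.2.2.length) / 12, by omega, (v - 8 * p.2.2.length) / 6 % 2, by omega,
      (v - 8 * p.2.2.length) % 6, by omega, by omega⟩

theorem gd {l : List T3} {P : T3 → Prop} (h : ∀ t ∈ l, P t) (ht : t < l.length) :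
    P (l.getD t (0, 0, 0)) := by
  rw [List.getD_eq_getElem _ _ ht]; exact h _ (List.getElem_mem _)

theorem gr_st (h1 : ∀ t ∈ p.2.1, Ok3 p.1 t) (h2 : ∀ t ∈ p.2.2, Ok3 p.1 t) :
    St (8 * p.2.2.length + 12 * p.2.1.length) (nb p) (cl p) := by
  intro v hv k hk
  rcases vcases hv with ⟨t, ht, s, hs, a, ha, rfl⟩ | ⟨t, ht, s, hs, a, ha, rfl⟩
  · obtain ⟨e1, e2, e3⟩ := evQ ht hs ha
    have o := gd h2 ht
    have T : ∀ a < 4, ∀ k < 3, tQ a k < 4 ∧ tQ a k ≠ a ∧ tQ (tQ a k) k = a ∧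
      ∀ k' < 3, k ≠ k' → tQ a k ≠ tQ a k' := by decide
    have A : ∀ k < 3, arg (p.2.2.getD t (0, 0, 0)) k < p.1 ∧ ∀ k' < 3, k ≠ k' →
        arg (p.2.2.getD t (0, 0, 0)) k ≠ arg (p.2.2.getD t (0, 0, 0)) k' := fun k hk => by
      unfold Ok3 at o; unfold arg; grind
    by_cases c : k = 3
    · subst c
      obtain ⟨f1, f2, -⟩ := evQ (s := 1 - s) ht (by omega) ha
      rw [e1, e2]
      refine ⟨by omega, by omega, ⟨3, by omega, by omega, f2⟩, fun k' _ _ => ?_⟩
      have := T a ha k' (by omega)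
      have := A k' (by omega)
      have := e3 k' (by omega)
      omega
    · have c : k < 3 := by omega
      obtain ⟨t1, t2, t3, t4⟩ := T a ha k c
      obtain ⟨f1, f2⟩ := (evQ ht hs t1).2.2 k c
      rw [(e3 k c).1, (e3 k c).2]
      refine ⟨by omega, by omega, ⟨k, hk, by omega, f2⟩, fun k' _ n => ?_⟩
      have := A k c
      by_cases c' : k' = 3
      · subst c'; omega
      · have := t4 k' (by omega) n
        have := (A k c).2 k' (by omega) n
        have := e3 k' (by omega)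
        omega
  · obtain ⟨e1, e2, e3⟩ := evD (p := p) (t := t) hs ha rfl
    have o := gd h1 ht
    have T : ∀ a < 6, ∀ k < 3, tD a k < 6 ∧ tD a k ≠ a ∧ cD a k < 3 ∧ (∃ k' < 3, tD (tD a k) k' = a ∧
      (k' = 0 ↔ k = 0) ∧ (k ≠ 0 → cD (tD a k) k' = cD a k)) ∧ ∀ k' < 3, k ≠ k' →
        tD a k ≠ tD a k' ∧ (k ≠ 0 → k' ≠ 0 → cD a k ≠ cD a k') := by
      intro a ha k hk; interval_cases a <;> interval_cases k <;> decide
    have A : ∀ k < 3, arg (p.2.1.getD t (0, 0, 0)) k < p.1 ∧ ∀ k' < 3, k ≠ k' →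
        arg (p.2.1.getD t (0, 0, 0)) k ≠ arg (p.2.1.getD t (0, 0, 0)) k' := fun k hk => by
      unfold Ok3 at o; unfold arg; grind
    by_cases c : k = 3
    · subst c
      obtain ⟨f1, f2, -⟩ := evD (p := p) (t := t) (s := 1 - s) (by omega) ha rfl
      rw [e1, e2]
      refine ⟨by omega, by omega, ⟨3, by omega, by omega, f2⟩, fun k' _ _ => ?_⟩
      have := T a ha k' (by omega)
      have := A _ this.2.2.1
      have := e3 k' (by omega)
      split_ifs at this <;> omega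
    · have c : k < 3 := by omega
      obtain ⟨t1, t2, t3, ⟨l, hl, t4, t5, t6⟩, t7⟩ := T a ha k c
      obtain ⟨f1, f2⟩ := (evD (p := p) (t := t) hs t1 rfl).2.2 l hl
      rw [(e3 k c).1, (e3 k c).2]
      refine ⟨by omega, by omega, ⟨l, by omega, by omega, by rw [f2]; grind⟩, fun k' _ n => ?_⟩
      have := A _ t3
      by_cases c' : k' = 3
      · subst c'; split_ifs <;> omega
      · have := t7 k' (by omega) n
        have := A _ (T a ha k' (by omega)).2.2.1
        have := e3 k' (by omega)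
        have := (T a ha k' (by omega)).2.2.1
        grind

theorem gr_sound (h1 : ∀ t ∈ p.2.1, Ok3 p.1 t) (h2 : ∀ t ∈ p.2.2, Ok3 p.1 t) (h : Faithful (gr p)) :
    ∃ x, CS p x := by
  obtain ⟨x, inj, con, ne⟩ := h
  choose z hz using con
  have st := gr_st h1 h2
  simp only [gr, fa_mk4] at inj hz ne
  have d : ∀ v < _, ∀ k < 4, x v ≠ x (nb p v k) := fun v hv k hk =>
    inj _ hv _ (st v hv k hk).1 (st v hv k hk).2.1.symm
  have E : ∀ v < _, ∀ k < 4, cx (x v) (x (nb p v k)) (z (cl p v k)) = 0 := fun v hv k hk =>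
    (mem_line (d v hv k hk)).1 (hz _ v hv k hk rfl)
  have N : ∀ v < _, ∀ k < 4, ∀ k' < 4, k ≠ k' → cx (x v) (x (nb p v k)) (x (nb p v k')) ≠ 0 :=
    fun v hv k hk k' hk' n => line_ne (d v hv k hk) (d v hv k' hk') (ne v hv k hk v hv k' hk'
      fun e => ((st v hv k hk).2.2.2 k' hk' n).1 (Sym2.congr_right.1 e))
  refine ⟨z, fun c hc => ?_, fun c hc => ?_⟩ <;> obtain ⟨t, ht, rfl⟩ := List.getElem_of_mem hc <;>
    rw [← List.getD_eq_getElem _ (0, 0, 0) ht]
  · have e := fun a ha k hk => (evD (p := p) (t := t) (s := 0) (a := a) (by omega) ha rfl).2.2 k hk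
    have E' : ∀ a < 6, ∀ k < 3, _ := fun a ha k hk =>
      (e a ha k hk).1 ▸ (e a ha k hk).2 ▸ E _ (by omega) k (by omega)
    have N' : ∀ a < 6, ∀ k < 3, ∀ k' < 3, k ≠ k' → _ := fun a ha k hk k' hk' n =>
      (e a ha k hk).1 ▸ (e a ha k' hk').1 ▸ N _ (by omega) k (by omega) k' (by omega) n
    exact des' (E' 0 (by omega) 0 (by omega)) (E' 1 (by omega) 0 (by omega))
      (E' 2 (by omega) 0 (by omega)) (E' 0 (by omega) 1 (by omega)) (E' 3 (by omega) 1 (by omega))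
      (E' 1 (by omega) 1 (by omega)) (E' 4 (by omega) 1 (by omega)) (E' 0 (by omega) 2 (by omega))
      (E' 3 (by omega) 2 (by omega)) (N' 0 (by omega) 0 (by omega) 1 (by omega) (by omega))
      (N' 0 (by omega) 0 (by omega) 2 (by omega) (by omega))
      (N' 1 (by omega) 0 (by omega) 2 (by omega) (by omega))
      (N' 1 (by omega) 0 (by omega) 1 (by omega) (by omega))
      (N' 2 (by omega) 0 (by omega) 1 (by omega) (by omega))
      (N' 2 (by omega) 0 (by omega) 2 (by omega) (by omega))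
      (N' 3 (by omega) 0 (by omega) 1 (by omega) (by omega))
      (N' 3 (by omega) 0 (by omega) 2 (by omega) (by omega))
  · have e := fun a ha k hk => (evQ (s := 0) (a := a) ht (by omega) ha).2.2 k hk
    have E' : ∀ a < 4, ∀ k < 3, _ := fun a ha k hk =>
      (e a ha k hk).1 ▸ (e a ha k hk).2 ▸ E _ (by omega) k (by omega)
    have N' : ∀ a < 4, ∀ k < 3, ∀ k' < 3, k ≠ k' → _ := fun a ha k hk k' hk' n =>
      (e a ha k hk).1 ▸ (e a ha k' hk').1 ▸ N _ (by omega) k (by omega) k' (by omega) n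
    exact fano (E' 0 (by omega) 0 (by omega)) (E' 2 (by omega) 0 (by omega))
      (E' 0 (by omega) 1 (by omega)) (E' 1 (by omega) 1 (by omega)) (E' 0 (by omega) 2 (by omega))
      (E' 1 (by omega) 2 (by omega)) (N' 0 (by omega) 0 (by omega) 1 (by omega) (by omega))
      (N' 0 (by omega) 0 (by omega) 2 (by omega) (by omega))
      (N' 0 (by omega) 1 (by omega) 2 (by omega) (by omega))
      (N' 1 (by omega) 2 (by omega) 1 (by omega) (by omega))

end Pool.Agent.Lead.Fa
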