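import Pool.Agent.Lead.Fa.B

/-!
The coloured graph: completeness.
-/

namespace Pool.Agent.Lead.Fa

open Pool.Agent.H38.NP Pool.Agent.H38.ER Pool.Agent.H38.Hyp Filter

theorem off_of {n q i j k} (g : cH.gen n q) (h : cH.R 1 [q i, q j, q k]) (hi : i < n) (hj : j < n)
    (hk : k < n) : det3 (q i).1 (q j).1 (q k).1 = 0 ∧ ∀ w < n, w ≠ i → w ≠ j → w ≠ k →
      det3 (q i).1 (q j).1 (q w).1 ≠ 0 := ⟨h.1.2.2.2, fun w hw a b c => by
  simpa [(g.2 w hw i hi a).1, (g.2 w hw j hj b).1, (g.2 w hw k hk c).1] using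
    (g.2 w hw i hi a).2.1 _ h.2⟩

theorem cx_sw {u v w} (h : cx u v w = 0) : cx v u w = 0 := by simp only [cx] at h ⊢; linarith

theorem cx_tr {o u v w} (n : o ≠ u) (h : cx o u v = 0) (h' : cx o u w = 0) : cx v w u = 0 ∧
    cx v w o = 0 := by
  obtain ⟨s, rfl⟩ := par2 n h
  obtain ⟨t, rfl⟩ := par2 n h'
  simp only [cx]; constructor <;> ring

def Ln (n : ℕ) (x : ℕ → ℝ × ℝ) (u v c : ℕ) : Prop :=
  cx (x u) (x v) (x c) = 0 ∧ ∀ w < n, w ≠ u → w ≠ v → w ≠ c → cx (x u) (x v) (x w) ≠ 0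

theorem Ln.symm {n x u v c} (h : Ln n x u v c) : Ln n x v u c :=
  ⟨cx_sw h.1, fun w hw a b d e => h.2 w hw b a d (cx_sw e)⟩

theorem Ln.rot {n x u v c} (h : Ln n x c u v) (n2 : x u ≠ x v) : Ln n x u v c :=
  ⟨by have := h.1; simp only [cx] at this ⊢; linarith, fun w hw a b d e => h.2 w hw d a b
    (cx_tr n2 (v := x c) (by have := h.1; simp only [cx] at this ⊢; linarith) e |>.2 |> fun k => by
      simp only [cx] at k ⊢; linarith)⟩

theorem place {p : ℕ × List T3 × List T3} (h1 : ∀ t ∈ p.2.1, Ok3 p.1 t) (h2 : ∀ t ∈ p.2.2, Ok3 p.1 t)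
    {y} (hy : CS p y) (inj : ∀ i < p.1, ∀ j < p.1, i ≠ j → y i ≠ y j) {b n}
    (hb : b = p.1 + 8 * p.2.2.length) (hn : n = b + 14 * p.2.1.length) : ∃ x : ℕ → ℝ × ℝ,
    (∀ i < n, ∀ j < n, i ≠ j → x i ≠ x j) ∧
    (∀ B < 2 * p.2.2.length, (∀ a < 4, ∀ k < 3, Ln n x (p.1 + 4 * B + a) (p.1 + 4 * B + tQ a k)
      (arg (p.2.2.getD (B / 2) (0, 0, 0)) k)) ∧ ∀ a < 4, ∀ j < p.1 + 4 * B, ∀ k < p.1 + 4 * B, j ≠ k →
        cx (x j) (x k) (x (p.1 + 4 * B + a)) ≠ 0) ∧
    ∀ B < 2 * p.2.1.length, (∀ a < 6, ∀ k < 3, Ln n x (b + 7 * B + 1 + a) (b + 7 * B + 1 + tD a k)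
      (if k = 0 then b + 7 * B else arg (p.2.1.getD (B / 2) (0, 0, 0)) (cD a k))) ∧
      ∀ a < 7, ∀ j < b + 7 * B, ∀ k < b + 7 * B, j ≠ k → cx (x j) (x k) (x (b + 7 * B + a)) ≠ 0 := by
  obtain ⟨N, P, Q⟩ := p
  simp only at *
  let L : ℕ → List T3 → List Con := fun c P => (List.range (2 * P.length)).map fun B =>
    (c, [(P.getD (B / 2) (0, 0, 0)).1, (P.getD (B / 2) (0, 0, 0)).2.1, (P.getD (B / 2) (0, 0, 0)).2.2])
  have len : ∀ c P, (L c P).length = 2 * P.length := by simp [L]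
  obtain ⟨q1, a1, a2, a3, a4⟩ := seq (by simp [mkT, edQ]) q_c (L 3 Q) N (fun i => (lf (y i), []))
    ⟨fun i _ => ⟨by simp [lf], by simp⟩, fun i hi j hj n =>
      ⟨np_lf (inj i hi j hj n), by simp [Off], by simp [Off]⟩⟩ (by
      simp only [L, List.forall_mem_map, List.mem_range]
      intro B hB
      have o := gd (t := B / 2) h2 (by omega)
      exact ⟨rfl, by simp only [List.forall_mem_cons]; exact ⟨o.1, o.2.1, o.2.2.1, by simp⟩, by
        simpa [cH, det_lf] using gd (t := B / 2) hy.2 (by simp only; omega)⟩)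
  rw [len, show N + 2 * Q.length * 4 = b by omega] at a2
  obtain ⟨q, b1, b2, b3, b4⟩ := seq (by simp [mkT, edD]) d_c (L 2 P) b q1 a2 (by
      simp only [L, List.forall_mem_map, List.mem_range]
      intro B hB
      obtain ⟨o1, o2, o3, o4, o5, o6⟩ := gd (t := B / 2) h1 (by omega)
      refine ⟨rfl, by
        simp only [List.forall_mem_cons]; exact ⟨by omega, by omega, by omega, by simp⟩, ?_⟩
      simp only [cH, List.map_cons, List.map_nil, a1 _ o1, a1 _ o2, a1 _ o3, det_lf]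
      exact ⟨np_lf (inj _ o1 _ o2 o4), np_lf (inj _ o1 _ o3 o5), np_lf (inj _ o2 _ o3 o6),
        gd (t := B / 2) hy.1 (by simp only; omega)⟩)
  rw [len, show b + 2 * P.length * 7 = n by omega] at b2
  obtain ⟨x, x1, x2⟩ := affine (q := fun i => (q i).1) fun i hi => (b2.1 i hi).1
  have d : ∀ i < n, ∀ j < n, i ≠ j → x i ≠ x j := fun i hi j hj h => x1 i hi j hj (b2.2 i hi j hj h).1
  have ln : ∀ {i j k}, cH.R 1 [q i, q j, q k] → i < n → j < n → k < n → Ln n x i j k :=
    fun h hi hj hk => ⟨(x2 _ hi _ hj _ hk).2 (off_of b2 h hi hj hk).1, fun w hw a b c e =>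
      (off_of b2 h hi hj hk).2 w hw a b c ((x2 _ hi _ hj _ hw).1 e)⟩
  have bl : ∀ {m Sk b c P q}, cH.sat (ex 3 m Sk b (L c P)) q → ∀ B < 2 * P.length,
      cH.sat Sk fun i => q (rn 3 (b + B * m) [(P.getD (B / 2) (0, 0, 0)).1,
        (P.getD (B / 2) (0, 0, 0)).2.1, (P.getD (B / 2) (0, 0, 0)).2.2] i) := by
    intro m Sk b c P q h B hB
    refine sat_inst.1 fun e he => h e ?_
    rw [ex_eq, len, List.mem_flatMap]
    exact ⟨B, List.mem_range.2 hB, by simpa [L, hB] using he⟩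
  refine ⟨x, d, fun B hB => ⟨?_, fun a ha j hj k hk h e => ?_⟩,
    fun B hB => ⟨?_, fun a ha j hj k hk h e => ?_⟩⟩
  · have s := bl a3 B hB
    obtain ⟨o1, o2, o3, -⟩ := gd (t := B / 2) h2 (by omega)
    generalize Q.getD (B / 2) (0, 0, 0) = T at *
    have e : ∀ i < 7, q1 (rn 3 (N + B * 4) [T.1, T.2.1, T.2.2] i) =
        q (rn 3 (N + B * 4) [T.1, T.2.1, T.2.2] i) := fun i hi =>
      (b1 _ (by interval_cases i <;> simp [rn] <;> omega)).symm
    simp only [Sem.sat, mkT, edQ, List.map_cons, List.map_nil, List.forall_mem_cons] at s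
    simp only [e, Nat.reduceLT] at s
    obtain ⟨s1, s2, s3, s4, s5, s6, -⟩ := s
    simp only [rn, mul_comm B] at s1 s2 s3 s4 s5 s6
    have t1 := ln s1 (by simp; omega) (by simp; omega) (by simp; omega)
    have t2 := ln s2 (by simp; omega) (by simp; omega) (by simp; omega)
    have t3 := ln s3 (by simp; omega) (by simp; omega) (by simp; omega)
    have t4 := ln s4 (by simp; omega) (by simp; omega) (by simp; omega)
    have t5 := ln s5 (by simp; omega) (by simp; omega) (by simp; omega)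
    have t6 := ln s6 (by simp; omega) (by simp; omega) (by simp; omega)
    intro a ha k hk
    interval_cases a <;> interval_cases k
    exacts [t1, t3, t5, t1.symm, t4, t6, t2, t3.symm, t6.symm, t2.symm, t4.symm, t5.symm]
  · refine a4 B (by rw [len]; exact hB) a ha j (by omega) k (by omega) h ?_
    rw [← b1 j (by omega), ← b1 k (by omega), ← b1 _ (by omega), mul_comm B]
    exact (x2 _ (by omega) _ (by omega) _ (by omega)).1 e
  · have s := bl b3 B hB
    obtain ⟨o1, o2, o3, -⟩ := gd (t := B / 2) h1 (by omega)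
    generalize P.getD (B / 2) (0, 0, 0) = T at *
    simp only [Sem.sat, mkT, edD, List.map_cons, List.map_nil, List.forall_mem_cons] at s
    obtain ⟨s1, s2, s3, s4, s5, s6, s7, s8, s9, -⟩ := s
    simp only [rn, mul_comm B] at s1 s2 s3 s4 s5 s6 s7 s8 s9
    have r : ∀ i < 7, ∀ j < 7, i ≠ j → x (b + 7 * B + i) ≠ x (b + 7 * B + j) := fun i _ j _ _ =>
      d _ (by omega) _ (by omega) (by omega)
    have t1 := (ln s1 (by simp; omega) (by simp; omega) (by simp; omega)).rot
      (r 1 (by omega) 4 (by omega) (by omega))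
    have t2 := (ln s2 (by simp; omega) (by simp; omega) (by simp; omega)).rot
      (r 2 (by omega) 5 (by omega) (by omega))
    have t3 := (ln s3 (by simp; omega) (by simp; omega) (by simp; omega)).rot
      (r 3 (by omega) 6 (by omega) (by omega))
    have t4 := ln s4 (by simp; omega) (by simp; omega) (by simp; omega)
    have t5 := ln s5 (by simp; omega) (by simp; omega) (by simp; omega)
    have t6 := ln s6 (by simp; omega) (by simp; omega) (by simp; omega)
    have t7 := ln s7 (by simp; omega) (by simp; omega) (by simp; omega)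
    have t8 := ln s8 (by simp; omega) (by simp; omega) (by simp; omega)
    have t9 := ln s9 (by simp; omega) (by simp; omega) (by simp; omega)
    intro a ha k hk
    interval_cases a <;> interval_cases k
    exacts [t1, t4, t8, t2, t6, t4.symm, t3, t8.symm, t6.symm, t1.symm, t5, t9, t2.symm, t7, t5.symm,
      t3.symm, t9.symm, t7.symm]
  · refine b4 B (by rw [len]; exact hB) a ha j (by omega) k (by omega) h ?_
    rw [mul_comm B]
    exact (x2 _ (by omega) _ (by omega) _ (by omega)).1 e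

theorem gr_complete {p : ℕ × List T3 × List T3} (h1 : ∀ t ∈ p.2.1, Ok3 p.1 t)
    (h2 : ∀ t ∈ p.2.2, Ok3 p.1 t) {y} (hy : CS p y) (inj : ∀ i < p.1, ∀ j < p.1, i ≠ j → y i ≠ y j) :
    Faithful (gr p) := by
  obtain ⟨x, d, hQ, hD⟩ := place h1 h2 hy inj rfl rfl
  have st := gr_st h1 h2
  generalize hK : p.2.2.length = K at *
  generalize hM : p.2.1.length = M at *
  generalize hN : p.1 = N at *
  let ι : ℕ → ℕ := fun v => if v < 8 * K then N + v else
    N + 8 * K + 7 * ((v - 8 * K) / 6) + 1 + (v - 8 * K) % 6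
  let γ : ℕ → ℕ := fun c => if c < N then c else if c < N + 2 * M then N + 8 * K + 7 * (c - N) else
    ι (c - (N + 2 * M))
  let bl : ℕ → ℕ := fun v => if v < 8 * K then v / 4 else 2 * K + (v - 8 * K) / 6
  have i1 : ∀ v < 8 * K + 12 * M, N ≤ ι v ∧ ι v < N + 8 * K + 14 * M ∧
      (∀ B, ι v ≠ N + 8 * K + 7 * B) ∧ ∀ w, ι v = ι w → v = w := fun v hv => by
    simp only [ι]
    refine ⟨by split_ifs <;> omega, by split_ifs <;> omega, fun B => by split_ifs <;> omega,
      fun w => by split_ifs <;> omega⟩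
  have D : ∀ u < 8 * K + 12 * M, ∀ v < 8 * K + 12 * M, u ≠ v → x (ι u) ≠ x (ι v) :=
    fun u hu v hv n => d _ (i1 u hu).2.1 _ (i1 v hv).2.1 fun e => n ((i1 u hu).2.2.2 v e)
  have G : ∀ u < 8 * K + 12 * M, ∀ v < 8 * K + 12 * M, ∀ w < 8 * K + 12 * M, u ≠ v → bl u < bl w →
      bl v < bl w → cx (x (ι u)) (x (ι v)) (x (ι w)) ≠ 0 := fun u hu v hv w hw n a b => by
    have n' : ι u ≠ ι v := fun e => n ((i1 u hu).2.2.2 v e)
    by_cases c : w < 8 * K
    · have := (hQ (w / 4) (by omega)).2 (w % 4) (by omega) (ι u) (by grind) (ι v) (by grind) n'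
      rwa [show N + 4 * (w / 4) + w % 4 = ι w by grind] at this
    · have := (hD ((w - 8 * K) / 6) (by omega)).2 (1 + (w - 8 * K) % 6) (by omega) (ι u) (by grind)
        (ι v) (by grind) n'
      rwa [show _ + (1 + (w - 8 * K) % 6) = ι w by grind] at this
  have T1 : ∀ a < 4, ∀ k < 3, tQ a k < 4 := by decide
  have T2 : ∀ a < 6, ∀ k < 3, tD a k < 6 := by decide
  have A : ∀ {t : T3} k, Ok3 N t → arg t k < N := fun k o => by
    unfold Ok3 at o; unfold arg; split_ifs <;> omega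
  have E : ∀ v < 8 * K + 12 * M, (∀ k < 3, (γ (cl p v k) < N ∨ ∃ B, γ (cl p v k) = N + 8 * K + 7 * B) ∧
      Ln (N + 8 * K + 14 * M) x (ι v) (ι (nb p v k)) (γ (cl p v k))) ∧ ∃ u < 8 * K + 12 * M,
        ∃ w < 8 * K + 12 * M, s(v, nb p v 3) = s(u, w) ∧ γ (cl p v 3) = ι u ∧ bl u % 2 = 0 ∧
          bl w = bl u + 1 ∧ w = u + if u < 8 * K then 4 else 6 := fun v hv => by
    subst hK hM hN
    rcases vcases hv with ⟨t, ht, s, hs, a, ha, rfl⟩ | ⟨t, ht, s, hs, a, ha, rfl⟩
    · obtain ⟨e1, e2, e3⟩ := evQ ht hs ha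
      refine ⟨fun k hk => ?_, 8 * t + a, by omega, 8 * t + 4 + a, by omega, ?_, ?_, by grind, by grind,
        by split_ifs <;> omega⟩
      · have := (hQ (2 * t + s) (by omega)).1 a ha k hk
        have o := A k (gd h2 ht)
        have := T1 a ha k hk
        rw [(e3 k hk).1, (e3 k hk).2, show γ _ = _ from if_pos o]
        refine ⟨.inl o, ?_⟩
        convert ‹Ln _ _ _ _ _› using 1
        · grind
        · grind
        · rw [show (2 * t + s) / 2 = t by omega]
      · rw [e1]; interval_cases s <;> simp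
      · rw [e2]; grind
    · obtain ⟨e1, e2, e3⟩ := evD (p := p) (t := t) hs ha rfl
      refine ⟨fun k hk => ?_, 8 * p.2.2.length + (12 * t + a), by omega,
        8 * p.2.2.length + (12 * t + 6 + a), by omega, ?_, ?_, by grind, by grind,
        by split_ifs <;> omega⟩
      · have := (hD (2 * t + s) (by omega)).1 a ha k hk
        have o := A (cD a k) (gd h1 ht)
        have := T2 a ha k hk
        rw [(e3 k hk).1, (e3 k hk).2]
        refine ⟨by grind, ?_⟩
        convert ‹Ln _ _ _ _ _› using 1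
        · grind
        · grind
        · rw [show (2 * t + s) / 2 = t by omega]; grind
      · rw [e1]; interval_cases s <;> simp
      · rw [e2]; grind
  have L : ∀ {u v u' v'}, s(u, v) = s(u', v') →
      line[ℝ, x (ι u), x (ι v)] = line[ℝ, x (ι u'), x (ι v')] := fun h => by
    rcases Sym2.eq_iff.1 h with ⟨rfl, rfl⟩ | ⟨rfl, rfl⟩
    exacts [rfl, by rw [Set.pair_comm]]
  have O : ∀ v < 8 * K + 12 * M, ∀ k < 3, ∀ u < 8 * K + 12 * M, ∀ w < 8 * K + 12 * M, u ≠ w →
      s(v, nb p v k) ≠ s(u, w) → line[ℝ, x (ι v), x (ι (nb p v k))] ≠ line[ℝ, x (ι u), x (ι w)] := by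
    intro v hv k hk u hu w hw n h e
    obtain ⟨s1, s2, -⟩ := st v hv k (by omega)
    obtain ⟨c, l⟩ := (E v hv).1 k hk
    have k : ∀ w < 8 * K + 12 * M, x (ι w) ∈ line[ℝ, x (ι v), x (ι (nb p v k))] →
        w = v ∨ w = nb p v k := fun w hw m => by
      by_contra z
      have := i1 w hw
      exact l.2 _ this.2.1 (by grind) (by grind) (by grind) ((mem_line (D _ hv _ s1 s2.symm)).1 m)
    have a := k u hu (e ▸ left_mem_affineSpan_pair _ _ _)
    have b := k w hw (e ▸ right_mem_affineSpan_pair _ _ _)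
    exact h (by rw [Sym2.eq_iff]; clear k l c e; grind)
  refine ⟨fun v => x (ι v), ?_, fun c => ⟨x (γ c), ?_⟩, ?_⟩ <;> simp only [gr, fa_mk4, hK, hM]
  · exact D
  · rintro v hv k hk rfl
    obtain ⟨s1, s2, -⟩ := st v hv k hk
    by_cases c : k = 3
    · obtain ⟨u, -, w, -, a, b, -⟩ := (E v hv).2
      rw [c, L a, b]; exact left_mem_affineSpan_pair _ _ _
    · exact (mem_line (D _ hv _ s1 s2.symm)).2 ((E v hv).1 k (by omega)).2.1
  · intro v hv k hk v' hv' k' hk' n
    obtain ⟨s1, s2, -⟩ := st v hv k hk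
    obtain ⟨s1', s2', -⟩ := st v' hv' k' hk'
    by_cases c : k < 3
    · exact O v hv k c _ hv' _ s1' s2'.symm n
    by_cases c' : k' < 3
    · exact (O v' hv' k' c' _ hv _ s1 s2.symm n.symm).symm
    obtain rfl : k = 3 := by omega
    obtain rfl : k' = 3 := by omega
    obtain ⟨u, hu, w, hw, a, -, a1, a2, a3⟩ := (E v hv).2
    obtain ⟨u', hu', w', hw', a', -, a1', a2', a3'⟩ := (E v' hv').2
    rw [L a, L a']
    intro e
    have n1 : u ≠ w := by rintro rfl; omega
    have n2 : u' ≠ w' := by rintro rfl; omega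
    have m1 := (mem_line (D _ hu _ hw n1)).1 (e.ge (left_mem_affineSpan_pair _ _ _))
    have m2 := (mem_line (D _ hu _ hw n1)).1 (e.ge (right_mem_affineSpan_pair _ _ _))
    have m3 := (mem_line (D _ hu' _ hw' n2)).1 (e.le (right_mem_affineSpan_pair _ _ _))
    rcases lt_trichotomy (bl u) (bl u') with h | h | h
    · exact G _ hu _ hw _ hw' n1 (by omega) (by omega) m2
    · by_cases z : u = u'
      · subst z
        exact n (by rw [a, a', a3, a3'])
      · refine G _ hu _ hu' _ hw' z (by omega) (by omega) ?_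
        have := (cx_tr (D _ hu _ hw n1) m1 m2).2
        simp only [cx] at this ⊢; linarith
    · exact G _ hu' _ hw' _ hw n2 (by omega) (by omega) m3

theorem fa_erh : ERH Reg4 Faithful :=
  cs_erh.reduce gr pt_gr fun _ ⟨h1, h2, h3⟩ => ⟨(gr_st h1 h2).reg,
    fun h => let ⟨_, a, b⟩ := h3 h; gr_complete h1 h2 a b, gr_sound h1 h2⟩

end Pool.Agent.Lead.Fa
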